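import Pool.Agent.V11111.QJ.Main

/-!
# MP_c8ec9a_mp, Q1: the Neumann and Dirichlet limits of quantum jellium do not agree

For every density `ρ > 0` there is one regular sequence `Λ_j` (a large ball together with
finitely many very small balls outside it, all with disjoint closures) such that, for every
`β > 0` and for bosons as well as fermions, `g^N(Λ_j) → +∞`. The Dirichlet limit is finite
(Lieb and Narnhofer), so the Neumann limit is never equal to it along this sequence.
-/

open Filter Topology
open Pool.Agent.V11111.QJ

namespace Pool.Agent.Results.MP_c8ec9a_mp.NeumannDiverges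

theorem result : ∀ ρ : ℝ, 0 < ρ → ∃ L : ℕ → Set E3, Regular ρ L ∧
    ∀ β : ℝ, 0 < β → ∀ s : Stat, Tendsto (fun j => gN β ρ s (L j) j) atTop (𝓝 ⊤) :=
  Pool.Agent.V11111.QJ.main

end Pool.Agent.Results.MP_c8ec9a_mp.NeumannDiverges
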